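import Mathlib

namespace Pool.Agent.Results.MP_d96af6_lc.Q1

/-- Intuitionistic propositional formulas. -/
inductive IF : Type
  | var : ℕ → IF
  | bot : IF
  | and : IF → IF → IF
  | or : IF → IF → IF
  | imp : IF → IF → IF

/-- All variables of the formula are among `p_0, …, p_{k-1}`. -/
def IF.In (k : ℕ) : IF → Prop
  | .var n => n < k
  | .bot => True
  | .and a b => a.In k ∧ b.In k
  | .or a b => a.In k ∧ b.In k
  | .imp a b => a.In k ∧ b.In k

/-- Kripke forcing on a partial order. -/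
def Forces {W : Type} [PartialOrder W] (V : ℕ → Set W) : IF → W → Prop
  | .var n, x => x ∈ V n
  | .bot, _ => False
  | .and a b, x => Forces V a x ∧ Forces V b x
  | .or a b, x => Forces V a x ∨ Forces V b x
  | .imp a b, x => ∀ y, x ≤ y → Forces V a y → Forces V b y

/-- The intermediate logic of a partial order. -/
def ILog (W : Type) [PartialOrder W] : Set IF :=
  {a | ∀ V : ℕ → Set W, (∀ n, IsUpperSet (V n)) → ∀ x, Forces V a x}

def IF.iff (a b : IF) : IF := .and (.imp a b) (.imp b a)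

def ph : ℕ → ℕ → IF
  | 0, r => .var (r % 3)
  | k + 1, r => .or (.imp (ph k (r + 2)) (ph k r)) (ph k (r + 2))

lemma ph_in (k r : ℕ) : (ph k r).In 3 := by
  induction k generalizing r with
  | zero => exact Nat.mod_lt _ (by norm_num)
  | succ k ih => exact ⟨⟨ih _, ih _⟩, ih _⟩

def Vl (N : ℕ) (r : ℕ) : Set (Fin 2 → ℕ) := {x | N < x 0 + x 1 ∨ (x 0 + x 1 = N ∧ x 0 % 3 = r % 3)}

lemma Vl_up (N r : ℕ) : IsUpperSet (Vl N r) := by
  intro x y h hx
  have h0 : x 0 ≤ y 0 := h 0
  have h1 : x 1 ≤ y 1 := h 1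
  simp only [Vl, Set.mem_ofPred_eq] at hx ⊢
  omega

lemma forces_ph (N k r : ℕ) (x : Fin 2 → ℕ) : Forces (Vl N) (ph k r) x ↔
    N < x 0 + x 1 + k ∨ (x 0 + x 1 + k = N ∧ x 0 % 3 = r % 3) := by
  induction k generalizing r x with
  | zero => simp [ph, Forces, Vl]
  | succ k ih =>
    simp only [ph, Forces, ih]
    constructor
    · rintro (h | h)
      · by_contra hc
        by_cases h1 : x 0 + x 1 + (k + 1) = N
        · have h2 := h ![x 0 + 1, x 1] (by intro i; fin_cases i <;> simp)
          have h3 := h ![x 0, x 1 + 1] (by intro i; fin_cases i <;> simp)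
          simp only [Matrix.cons_val_zero, Matrix.cons_val_one] at h2 h3
          omega
        · have h2 := h ![x 0, N - k - x 0] (by intro i; fin_cases i <;> simp; omega)
          have h3 := h ![x 0 + 1, N - k - x 0 - 1] (by intro i; fin_cases i <;> simp; omega)
          have h4 := h ![x 0 + 2, N - k - x 0 - 2] (by intro i; fin_cases i <;> simp; omega)
          simp only [Matrix.cons_val_zero, Matrix.cons_val_one] at h2 h3 h4
          omega
      · omega
    · intro h
      by_cases h1 : N < x 0 + x 1 + k ∨ (x 0 + x 1 + k = N ∧ x 0 % 3 = (r + 2) % 3)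
      · exact Or.inr h1
      · left
        intro y hy
        have h2 : x 0 ≤ y 0 := hy 0
        have h3 : x 1 ≤ y 1 := hy 1
        omega

theorem result : ∃ φ : ℕ → IF, (∀ m, (φ m).In 3) ∧
    ∀ m n, m ≠ n → (φ m).iff (φ n) ∉ ILog (Fin 2 → ℕ) := by
  refine ⟨fun k => ph k 0, fun m => ph_in m 0, fun m n hmn h => ?_⟩
  have h1 := h (Vl m) (Vl_up m) 0
  have h2 := h (Vl n) (Vl_up n) 0
  have h3 := (forces_ph _ _ _ _).1 (h1.1 0 le_rfl ((forces_ph _ _ _ _).2 (by simp)))
  have h4 := (forces_ph _ _ _ _).1 (h2.2 0 le_rfl ((forces_ph _ _ _ _).2 (by simp)))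
  simp at h3 h4
  omega

end Pool.Agent.Results.MP_d96af6_lc.Q1
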